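import Mathlib

open Topology Filter Set

namespace Pool.Agent.Results.MP_f2fc76_an.Equiv

universe u

variable {X : Type u} [MetricSpace X]

/-- A (jointly continuous) semi-flow `(F^t)_{t ≥ 0}`; values at `t < 0` are never used. -/
def IsSemiflow (F : ℝ → X → X) : Prop :=
  ContinuousOn (fun p : ℝ × X => F p.1 p.2) (Ici 0 ×ˢ univ) ∧ (∀ x, F 0 x = x) ∧
    ∀ t s x, 0 ≤ t → 0 ≤ s → F t (F s x) = F (t + s) x

/-- `z` is piecewise continuous on `[0, τ]`. -/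
def PiecewiseCont (z : ℝ → X) (τ : ℝ) : Prop :=
  ∃ (m : ℕ) (a : ℕ → ℝ), a 0 = 0 ∧ a m = τ ∧ ∀ i < m, a i < a (i + 1) ∧
    ∃ g : ℝ → X, ContinuousOn g (Icc (a i) (a (i + 1))) ∧ EqOn z g (Ioo (a i) (a (i + 1)))

/-- There is an `ε`-chain of the semi-flow from `x` to `y`, inside `K`, of duration `τ`. -/
def FlowChain (F : ℝ → X → X) (K : Set X) (x y : X) (ε τ : ℝ) : Prop :=
  1 ≤ τ ∧ ∃ z : ℝ → X, PiecewiseCont z τ ∧ z 0 = x ∧ z τ = y ∧ (∀ t ∈ Icc 0 τ, z t ∈ K) ∧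
    ∀ t₀ t₁, 0 ≤ t₀ → t₀ < t₁ → t₁ ≤ τ → t₁ - t₀ ≤ 1 → dist (F (t₁ - t₀) (z t₀)) (z t₁) < ε

/-- There is an `ε`-chain of the map `g` from `x` to `y`, inside `K`, of duration `n`. -/
def MapChain (g : X → X) (K : Set X) (x y : X) (ε : ℝ) (n : ℕ) : Prop :=
  1 ≤ n ∧ ∃ z : ℕ → X, z 0 = x ∧ z n = y ∧ (∀ i ≤ n, z i ∈ K) ∧
    ∀ i < n, dist (g (z i)) (z (i + 1)) < ε

/-- `y` is a limit chain point of `x` for the semi-flow `F`. -/
def FlowLimit (F : ℝ → X → X) (x y : X) : Prop :=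
  ∃ K : Set X, IsCompact K ∧ ∃ D : ℝ → ℝ,
    (∀ ε > 0, FlowChain F K x y ε (D ε)) ∧ Tendsto D (𝓝[>] 0) atTop

/-- `y` is a limit chain point of `x` for the map `g`. -/
def MapLimit (g : X → X) (x y : X) : Prop :=
  ∃ K : Set X, IsCompact K ∧ ∃ D : ℝ → ℕ,
    (∀ ε > 0, MapChain g K x y ε (D ε)) ∧ Tendsto D (𝓝[>] 0) atTop

theorem of_lim {α : Type} [Preorder α] {P : ℝ → α → Prop} {D : ℝ → α}
    (h : ∀ ε > 0, P ε (D ε)) (hD : Tendsto D (𝓝[>] 0) atTop) (ε : ℝ) (hε : 0 < ε) (M : α) :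
    ∃ e, 0 < e ∧ e < ε ∧ ∃ τ, M ≤ τ ∧ P e τ := by
  have e2 : ∀ᶠ e in 𝓝[>] (0 : ℝ), e ∈ Ioo 0 ε := Ioo_mem_nhdsGT hε
  obtain ⟨e, h1, h2⟩ := ((hD.eventually_ge_atTop M).and e2).exists
  exact ⟨e, h2.1, h2.2, D e, h1, h e h2.1⟩

theorem to_lim {α : Type} [Preorder α] [Nonempty α] {P : ℝ → α → Prop} (v : ℝ → α)
    (hv : Tendsto v (𝓝[>] 0) atTop) (h : ∀ ε > 0, ∀ M, ∃ τ, M ≤ τ ∧ P ε τ) :
    ∃ D : ℝ → α, (∀ ε > 0, P ε (D ε)) ∧ Tendsto D (𝓝[>] 0) atTop := by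
  have h1 : ∀ ε > 0, ∃ τ, v ε ≤ τ ∧ P ε τ := fun ε hε => h ε hε (v ε)
  choose! D hD using h1
  refine ⟨D, fun ε hε => (hD ε hε).2, tendsto_atTop_mono' _ ?_ hv⟩
  filter_upwards [self_mem_nhdsWithin] with ε hε using (hD ε hε).1

theorem uc {F : ℝ → X → X} (hF : IsSemiflow F) {K : Set X} (hK : IsCompact K) (S : ℝ)
    {η : ℝ} (hη : 0 < η) : ∃ δ > 0, ∀ s ∈ Icc 0 S, ∀ s' ∈ Icc 0 S, ∀ a ∈ K, ∀ b ∈ K,
      |s - s'| < δ → dist a b < δ → dist (F s a) (F s' b) < η := by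
  have h1 : UniformContinuousOn (fun p : ℝ × X => F p.1 p.2) (Icc 0 S ×ˢ K) :=
    (isCompact_Icc.prod hK).uniformContinuousOn_of_continuous
      (hF.1.mono (prod_mono Icc_subset_Ici_self (subset_univ _)))
  obtain ⟨δ, hδ, h2⟩ := Metric.uniformContinuousOn_iff.1 h1 η hη
  refine ⟨δ, hδ, fun s hs s' hs' a ha b hb h3 h4 => h2 (s, a) ⟨hs, ha⟩ (s', b) ⟨hs', hb⟩ ?_⟩
  rw [Prod.dist_eq]
  exact max_lt (by rwa [Real.dist_eq]) h4

theorem tube {F : ℝ → X → X} (hF : IsSemiflow F) {K : Set X} (hK : IsCompact K) (S : ℝ) :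
    ∃ K' : Set X, IsCompact K' ∧ ∀ s ∈ Icc 0 S, ∀ a ∈ K, F s a ∈ K' :=
  ⟨(fun p : ℝ × X => F p.1 p.2) '' (Icc 0 S ×ˢ K),
    (isCompact_Icc.prod hK).image_of_continuousOn
      (hF.1.mono (prod_mono Icc_subset_Ici_self (subset_univ _))),
    fun s hs a ha => ⟨(s, a), ⟨hs, ha⟩, rfl⟩⟩

theorem flow_to_map {F : ℝ → X → X} (hF : IsSemiflow F) {T : ℝ} (hT : 0 < T) {x y : X}
    (h : FlowLimit F x y) : MapLimit (F T) x y := by
  obtain ⟨K, hK, D, hD, hD'⟩ := h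
  refine ⟨K, hK, to_lim (fun e => ⌊e⁻¹⌋₊)
    (tendsto_nat_floor_atTop.comp tendsto_inv_nhdsGT_zero) fun ε hε M => ?_⟩
  obtain ⟨K₁, hK₁, hKK⟩ := tube hF hK 1
  obtain ⟨J, hJ⟩ := exists_nat_ge (2 * T)
  have hη : 0 < ε / (J + 2) := by positivity
  set η := ε / (J + 2) with hηdef
  obtain ⟨δ, hδ, huc⟩ := uc hF hK₁ J hη
  obtain ⟨N, hN⟩ := exists_nat_gt (T / δ)
  obtain ⟨e, he, heδ, τ, hτ, hτ1, z, -, hz0, hz1, hzK, hz⟩ :=
    of_lim hD hD' δ hδ (((M + N + 1 : ℕ) : ℝ) * T)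
  have hK1 : ∀ a ∈ K, a ∈ K₁ := fun a ha => by
    have := hKK 0 ⟨le_rfl, zero_le_one⟩ a ha
    rwa [hF.2.1] at this
  have lemA : ∀ j : ℕ, j ≤ J → ∀ t₀ t₁, 0 ≤ t₀ → t₀ ≤ t₁ → t₁ ≤ τ → t₁ - t₀ ≤ j →
      dist (F (t₁ - t₀) (z t₀)) (z t₁) ≤ j * η := by
    intro j
    induction j with
    | zero =>
      intro _ t₀ t₁ _ h2 _ h4
      have : t₁ = t₀ := by simp at h4; linarith
      subst this
      simp [hF.2.1]
    | succ j ih =>
      intro hj t₀ t₁ h1 h2 h3 h4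
      have hj0 : (0 : ℝ) ≤ j := Nat.cast_nonneg j
      have hjJ : (j : ℝ) ≤ J := by exact_mod_cast (by omega : j ≤ J)
      push_cast at h4 ⊢
      by_cases h5 : t₁ - t₀ ≤ j
      · have := ih (by omega) t₀ t₁ h1 h2 h3 h5
        nlinarith
      · push Not at h5
        have a1 := ih (by omega) (t₁ - j) t₁ (by linarith) (by linarith) h3 (by linarith)
        have a2 := hz t₀ (t₁ - j) h1 (by linarith) (by linarith) (by linarith)
        have a3 := huc j ⟨hj0, hjJ⟩ j ⟨hj0, hjJ⟩ _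
          (hKK (t₁ - j - t₀) ⟨by linarith, by linarith⟩ _ (hzK t₀ ⟨h1, by linarith⟩)) _
          (hK1 _ (hzK (t₁ - j) ⟨by linarith, by linarith⟩)) (by simpa using hδ) (a2.trans heδ)
        rw [hF.2.2 _ _ _ hj0 (by linarith)] at a3
        have e1 : (j : ℝ) + (t₁ - j - t₀) = t₁ - t₀ := by ring
        have e2 : t₁ - (t₁ - j) = j := by ring
        rw [e1] at a3
        rw [e2] at a1
        have := dist_triangle (F (t₁ - t₀) (z t₀)) (F j (z (t₁ - j))) (z t₁)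
        linarith
  set n := ⌊τ / T⌋₊ with hn
  have hτ0 : 0 ≤ τ / T := by positivity
  have hn1 : M + N + 1 ≤ n := Nat.le_floor (by rwa [le_div_iff₀ hT])
  have hnpos : (0 : ℝ) < n := by exact_mod_cast (by omega : 0 < n)
  have hn1' : (1 : ℝ) ≤ n := by exact_mod_cast (by omega : 1 ≤ n)
  have hNn : (N : ℝ) ≤ n := by exact_mod_cast (by omega : N ≤ n)
  have hn2 : (n : ℝ) * T ≤ τ := by rw [← le_div_iff₀ hT]; exact Nat.floor_le hτ0
  have hn3 : τ < (n + 1) * T := by rw [← div_lt_iff₀ hT]; exact Nat.lt_floor_add_one _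
  set T' := τ / n with hT'
  have hT'n : (n : ℝ) * T' = τ := by rw [hT']; field_simp
  have b1 : T ≤ T' := by nlinarith
  have b2 : T' ≤ 2 * T := by nlinarith
  have b3 : T' - T < δ := by
    rw [div_lt_iff₀ hδ] at hN
    have : (n : ℝ) * (T' - T) < n * δ := by nlinarith
    exact lt_of_mul_lt_mul_left this hnpos.le
  have hmem : ∀ i : ℕ, i ≤ n → (i : ℝ) * T' ∈ Icc 0 τ := fun i hi => by
    have : (i : ℝ) ≤ n := by exact_mod_cast hi
    have h0 : (0 : ℝ) ≤ i := Nat.cast_nonneg i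
    exact ⟨by nlinarith, by nlinarith⟩
  refine ⟨n, by omega, by omega, fun i => z (i * T'), by simpa using hz0, by
    simpa [hT'n] using hz1, fun i hi => hzK _ (hmem i hi), fun i hi => ?_⟩
  have c1 := lemA J le_rfl (i * T') (((i + 1 : ℕ) : ℝ) * T') (hmem i hi.le).1
    (by push_cast; nlinarith) (hmem (i + 1) hi).2 (by push_cast; nlinarith)
  have e1 : ((i + 1 : ℕ) : ℝ) * T' - i * T' = T' := by push_cast; ring
  rw [e1] at c1
  have hw := hK1 _ (hzK _ (hmem i hi.le))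
  have c2 := huc T ⟨hT.le, by linarith⟩ T' ⟨by linarith, by linarith⟩ _ hw _ hw
    (by rw [abs_sub_comm, abs_of_nonneg (by linarith)]; exact b3) (by simpa using hδ)
  have c3 := dist_triangle (F T (z (i * T'))) (F T' (z (i * T'))) (z (((i + 1 : ℕ) : ℝ) * T'))
  have c4 : ((J : ℝ) + 2) * η = ε := by rw [hηdef]; field_simp
  show dist (F T (z (i * T'))) (z (((i + 1 : ℕ) : ℝ) * T')) < ε
  nlinarith

theorem map_to_flow {F : ℝ → X → X} (hF : IsSemiflow F) {T : ℝ} (hT : 0 < T) {x y : X}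
    (h : MapLimit (F T) x y) : FlowLimit F x y := by
  obtain ⟨K, hK, D, hD, hD'⟩ := h
  obtain ⟨K₁, hK₁, hKK⟩ := tube hF hK T
  refine ⟨K₁, hK₁, to_lim (fun e => e⁻¹) tendsto_inv_nhdsGT_zero fun ε hε M => ?_⟩
  have hη : 0 < ε * T / (2 + T) := by positivity
  set η := ε * T / (2 + T) with hηdef
  obtain ⟨δ, hδ, huc⟩ := uc hF hK₁ (1 + T) hη
  obtain ⟨N, hN⟩ := exists_nat_ge (max M 1 / T)
  obtain ⟨e, he, heδ, n, hn, -, w, hw0, hw1, hwK, hw⟩ := of_lim hD hD' δ hδ N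
  have hK1 : ∀ a ∈ K, a ∈ K₁ := fun a ha => by
    have := hKK 0 ⟨le_rfl, hT.le⟩ a ha
    rwa [hF.2.1] at this
  have hnT : max M 1 ≤ n * T := by
    rw [div_le_iff₀ hT] at hN
    have : (N : ℝ) ≤ n := by exact_mod_cast hn
    nlinarith
  have lemB : ∀ j i : ℕ, i + j ≤ n → ∀ r : ℝ, 0 ≤ r → r + j * T ≤ 1 + T →
      dist (F (r + j * T) (w i)) (F r (w (i + j))) ≤ j * η := by
    intro j
    induction j with
    | zero => intro i _ r _ _; simp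
    | succ j ih =>
      intro i hi r hr hrj
      have hj0 : (0 : ℝ) ≤ j := Nat.cast_nonneg j
      push_cast at hrj ⊢
      have hs : r + j * T ∈ Icc 0 (1 + T) := ⟨by positivity, by nlinarith⟩
      have a1 := ih (i + 1) (by omega) r hr hs.2
      have a2 := huc _ hs _ hs _ (hKK T ⟨hT.le, le_rfl⟩ _ (hwK i (by omega))) _
        (hK1 _ (hwK (i + 1) (by omega))) (by simpa using hδ) ((hw i (by omega)).trans heδ)
      rw [hF.2.2 _ _ _ hs.1 hT.le] at a2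
      have e1 : r + j * T + T = r + (j + 1) * T := by ring
      have e2 : i + 1 + j = i + (j + 1) := by ring
      rw [e1] at a2
      rw [e2] at a1
      have := dist_triangle (F (r + (j + 1) * T) (w i)) (F (r + j * T) (w (i + 1)))
        (F r (w (i + (j + 1))))
      linarith
  have fl1 : ∀ t : ℝ, 0 ≤ t → (⌊t / T⌋₊ : ℝ) * T ≤ t := fun t ht => by
    rw [← le_div_iff₀ hT]; exact Nat.floor_le (by positivity)
  have fl2 : ∀ t : ℝ, t < (⌊t / T⌋₊ + 1) * T := fun t => by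
    rw [← div_lt_iff₀ hT]; exact Nat.lt_floor_add_one _
  have fl3 : ∀ t : ℝ, t ≤ n * T → ⌊t / T⌋₊ ≤ n := fun t ht =>
    Nat.floor_le_of_le (by rwa [div_le_iff₀ hT])
  refine ⟨n * T, (le_max_left _ _).trans hnT, (le_max_right _ _).trans hnT,
    fun t => F (t - ⌊t / T⌋₊ * T) (w ⌊t / T⌋₊), ?_, ?_, ?_, ?_, ?_⟩
  · refine ⟨n, fun i => i * T, by simp, rfl, fun i _ => ⟨by push_cast; linarith,
      fun t => F (t - i * T) (w i), ?_, fun t ht => ?_⟩⟩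
    · have hc : Continuous fun t : ℝ => (t - i * T, w i) := by fun_prop
      exact hF.1.comp hc.continuousOn fun t ht => ⟨sub_nonneg.2 ht.1, mem_univ _⟩
    · have h0 : (0 : ℝ) ≤ i := Nat.cast_nonneg i
      have h1 := ht.1
      have h2 := ht.2
      push_cast at h1 h2
      have : ⌊t / T⌋₊ = i := by
        rw [Nat.floor_eq_iff (div_nonneg (by nlinarith) hT.le), le_div_iff₀ hT, div_lt_iff₀ hT]
        exact ⟨h1.le, h2⟩
      simp only [this]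
  · simp [hF.2.1, hw0]
  · have : ⌊(n : ℝ) * T / T⌋₊ = n := by rw [mul_div_assoc, div_self hT.ne', mul_one, Nat.floor_natCast]
    simp only [this, sub_self, hF.2.1, hw1]
  · intro t ht
    have := fl1 t ht.1
    have := fl2 t
    exact hKK _ ⟨by linarith, by linarith⟩ _ (hwK _ (fl3 t ht.2))
  · intro t₀ t₁ h1 h2 h3 h4
    have hle : ⌊t₀ / T⌋₊ ≤ ⌊t₁ / T⌋₊ := Nat.floor_le_floor (by gcongr)
    obtain ⟨j, hj⟩ := Nat.exists_eq_add_of_le hle
    have a0 := fl1 t₀ h1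
    have a1 := fl2 t₀
    have a2 := fl1 t₁ (by linarith)
    have a3 := fl3 t₁ h3
    show dist (F (t₁ - t₀) (F (t₀ - ⌊t₀ / T⌋₊ * T) (w ⌊t₀ / T⌋₊)))
      (F (t₁ - ⌊t₁ / T⌋₊ * T) (w ⌊t₁ / T⌋₊)) < ε
    rw [hF.2.2 _ _ _ (by linarith) (by linarith)]
    rw [hj] at a2 a3 ⊢
    generalize ⌊t₀ / T⌋₊ = i at *
    push_cast at a2 ⊢
    have b1 := lemB j i a3 (t₁ - (i + j) * T) (by linarith) (by linarith)
    have e1 : t₁ - (i + j) * T + j * T = t₁ - t₀ + (t₀ - i * T) := by ring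
    rw [e1] at b1
    refine b1.trans_lt ?_
    have b2 : (j : ℝ) * T < 2 + T := by linarith
    have b3 : (j : ℝ) * η = ε * (j * T / (2 + T)) := by rw [hηdef]; ring
    have b4 : j * T / (2 + T) < 1 := by rw [div_lt_one (by positivity)]; exact b2
    rw [b3]
    nlinarith

theorem result (X : Type u) [MetricSpace X] (F : ℝ → X → X) (hF : IsSemiflow F)
    (T : ℝ) (hT : 0 < T) (x y : X) : FlowLimit F x y ↔ MapLimit (F T) x y :=
  ⟨flow_to_map hF hT, map_to_flow hF hT⟩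

end Pool.Agent.Results.MP_f2fc76_an.Equiv
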